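import Pool.Agent.H917R2.Tr.Stubs

/-! Elementary properties of `vf`. -/

open scoped ComplexOrder InnerProductSpace Topology
open Filter

noncomputable section

namespace H677R2.Tr

open H917R2.Tr

theorem p_R_vf : H917R2.Tr.R_vf := by
  intro H _ _ _ ξ hξ
  have hb : ∀ (x : H →L[ℂ] H) (k : ℕ), ‖⟪ξ k, x (ξ k)⟫_ℂ‖ ≤ ‖x‖ * ‖ξ k‖ ^ 2 := by
    intro x k
    calc ‖⟪ξ k, x (ξ k)⟫_ℂ‖ ≤ ‖ξ k‖ * ‖x (ξ k)‖ := norm_inner_le_norm _ _
      _ ≤ ‖ξ k‖ * (‖x‖ * ‖ξ k‖) := by gcongr; exact x.le_opNorm _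
      _ = ‖x‖ * ‖ξ k‖ ^ 2 := by ring
  have hs2 : Summable fun k => ‖ξ k‖ ^ 2 := hξ
  have hs : ∀ x : H →L[ℂ] H, Summable fun k => ⟪ξ k, x (ξ k)⟫_ℂ := fun x =>
    Summable.of_norm_bounded (hs2.mul_left ‖x‖) (hb x)
  refine ⟨hs, ?_, ?_, ?_, ?_⟩
  · intro x y
    unfold vf
    rw [← (hs x).tsum_add (hs y)]
    refine tsum_congr fun k => ?_
    rw [add_apply, inner_add_right]
  · intro a x
    unfold vf
    rw [← tsum_mul_left]
    refine tsum_congr fun k => ?_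
    rw [smul_apply, inner_smul_right]
  · intro x
    unfold vf mu
    have h1 : ∑' k, ‖(1 : H →L[ℂ] H) (ξ k)‖ ^ 2 = ∑' k, ‖ξ k‖ ^ 2 := rfl
    rw [h1, ← tsum_mul_left]
    have hn : Summable fun k => ‖⟪ξ k, x (ξ k)⟫_ℂ‖ :=
      Summable.of_nonneg_of_le (fun _ => norm_nonneg _) (hb x) (hs2.mul_left ‖x‖)
    exact (norm_tsum_le_tsum_norm hn).trans (hn.tsum_le_tsum (hb x) (hs2.mul_left ‖x‖))
  · intro x
    unfold vf mu
    rw [Complex.ofReal_tsum]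
    refine tsum_congr fun k => ?_
    rw [mul_apply_eq_comp, ContinuousLinearMap.star_eq_adjoint,
      ContinuousLinearMap.adjoint_inner_right, inner_self_eq_norm_sq_to_K]
    push_cast
    rfl

end H677R2.Tr
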